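import Pool.Agent.Helper42.FR.Stmts

set_option autoImplicit false

/-! # Row LO: lower bound for the rank of the completions -/

namespace Pool.Agent.Helper62.FR

open Matrix Pool.Agent.Helper81.Fmr Pool.Agent.Helper42.FR Module

universe u

section
variable {F : Type u} [Field F]

theorem lo_tri {I1 I2 J1 J2 : Type} [Fintype I1] [Fintype I2] [Fintype J1] [Fintype J2]
    (S : Matrix (I1 ⊕ I2) (J1 ⊕ J2) F) (h : ∀ i j, S (Sum.inr i) (Sum.inl j) = 0) :
    (S.submatrix Sum.inl Sum.inl).rank + (S.submatrix Sum.inr Sum.inr).rank ≤ S.rank := by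
  classical
  let W := LinearMap.range S.mulVecLin
  let π : (I1 ⊕ I2 → F) →ₗ[F] (I2 → F) := LinearMap.funLeft F F Sum.inr
  let ι : (I1 → F) →ₗ[F] (I1 ⊕ I2 → F) :=
    { toFun := fun w => Sum.elim w 0
      map_add' := fun a b => by
        funext i
        rcases i with i | i <;> simp
      map_smul' := fun c a => by
        funext i
        rcases i with i | i <;> simp }
  have hι : Function.Injective ι := fun a b h => by
    funext i
    exact congrFun h (Sum.inl i)
  let U := (LinearMap.range (S.submatrix Sum.inl Sum.inl).mulVecLin).map ι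
  have hU : finrank F U = (S.submatrix (Sum.inl : I1 → I1 ⊕ I2) (Sum.inl : J1 → J1 ⊕ J2)).rank :=
    (LinearEquiv.finrank_eq (Submodule.equivMapOfInjective ι hι _)).symm
  have hUW : U ≤ W := by
    rintro _ ⟨_, ⟨x, rfl⟩, rfl⟩
    refine ⟨Sum.elim x 0, ?_⟩
    funext i
    rcases i with i | i
    · simp [mulVec, dotProduct, Fintype.sum_sum_type, ι]
    · simp [mulVec, dotProduct, Fintype.sum_sum_type, ι, h]
  have hUπ : ∀ w ∈ U, π w = 0 := by
    rintro _ ⟨w, _, rfl⟩
    funext i
    simp [π, ι, LinearMap.funLeft_apply]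
  let f := π.domRestrict W
  have h1 := LinearMap.finrank_range_add_finrank_ker f
  have h2 : (S.submatrix (Sum.inr : I2 → I1 ⊕ I2) (Sum.inr : J2 → J1 ⊕ J2)).rank ≤
      finrank F (LinearMap.range f) := by
    apply Submodule.finrank_mono
    rintro _ ⟨y, rfl⟩
    refine ⟨⟨S.mulVecLin (Sum.elim 0 y), ⟨_, rfl⟩⟩, ?_⟩
    funext i
    simp [f, π, mulVec, dotProduct, Fintype.sum_sum_type, LinearMap.funLeft_apply]
  have h3 : (S.submatrix (Sum.inl : I1 → I1 ⊕ I2) (Sum.inl : J1 → J1 ⊕ J2)).rank ≤
      finrank F (LinearMap.ker f) := by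
    rw [← hU, ← LinearEquiv.finrank_eq (Submodule.comapSubtypeEquivOfLe hUW)]
    apply Submodule.finrank_mono
    intro w hw
    rw [LinearMap.mem_ker]
    exact hUπ _ hw
  have h4 : S.rank = finrank F W := rfl
  omega

theorem lo_many {I J κ R C : Type} [Fintype I] [Fintype J] [Fintype R] [Fintype C]
    [DecidableEq κ] (M : Matrix I J F) (f : κ → R → I) (g : κ → C → J)
    (h : ∀ k k' r c, k ≠ k' → M (f k r) (g k' c) = 0) (T : Finset κ) :
    ∀ (I2 J2 : Type) [Fintype I2] [Fintype J2] (f2 : I2 → I) (g2 : J2 → J),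
      (∀ k ∈ T, ∀ i c, M (f2 i) (g k c) = 0) →
      (∑ k ∈ T, (M.submatrix (f k) (g k)).rank) + (M.submatrix f2 g2).rank ≤ M.rank := by
  induction T using Finset.induction_on with
  | empty =>
    intro I2 J2 _ _ f2 g2 _
    rw [Finset.sum_empty, zero_add]
    exact rank_submatrix_le M f2 g2
  | insert k T hk ih =>
    intro I2 J2 _ _ f2 g2 h2
    rw [Finset.sum_insert hk]
    have h3 := ih (R ⊕ I2) (C ⊕ J2) (Sum.elim (f k) f2) (Sum.elim (g k) g2) (by
      intro k' hk' i c
      rcases i with r | i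
      · exact h k k' r c (fun h => hk (h ▸ hk'))
      · exact h2 k' (Finset.mem_insert_of_mem hk') i c)
    have h4 : (M.submatrix (f k) (g k)).rank + (M.submatrix f2 g2).rank ≤
        (M.submatrix (Sum.elim (f k) f2) (Sum.elim (g k) g2)).rank :=
      lo_tri (M.submatrix (Sum.elim (f k) f2) (Sum.elim (g k) g2))
        (fun i j => h2 k (Finset.mem_insert_self _ _) i j)
    omega

theorem lo_core {α β γ : Type} [Fintype α] [DecidableEq α] [Fintype β] [DecidableEq β]
    [Fintype γ] (B : Matrix α γ F) (C : Matrix β α F) :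
    Fintype.card α + (C * B).rank ≤ (fromBlocks (1 : Matrix α α F) B C 0).rank := by
  have e : fromBlocks (1 : Matrix α α F) 0 (-C) (1 : Matrix β β F) *
      fromBlocks 1 B C 0 = fromBlocks 1 B 0 (-(C * B)) := by
    rw [fromBlocks_multiply]
    simp
  have h := lo_tri (fromBlocks (1 : Matrix α α F) B 0 (-(C * B))) (fun i j => by simp)
  have h1 : ((fromBlocks (1 : Matrix α α F) B (0 : Matrix β α F) (-(C * B))).submatrix
      Sum.inl Sum.inl).rank = Fintype.card α := by
    have : (fromBlocks (1 : Matrix α α F) B (0 : Matrix β α F) (-(C * B))).submatrix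
      Sum.inl Sum.inl = (1 : Matrix α α F) := by
      ext i j
      simp
    rw [this, rank_one]
  have h2 : (fromBlocks (1 : Matrix α α F) B (0 : Matrix β α F) (-(C * B))).submatrix
      Sum.inr Sum.inr = -(C * B) := by
    ext i j
    simp
  have h3 : (C * B).rank ≤ (-(C * B)).rank := by
    have e3 : (-1 : Matrix β β F) * (-(C * B)) = C * B := by simp
    calc (C * B).rank = ((-1 : Matrix β β F) * (-(C * B))).rank := by rw [e3]
      _ ≤ _ := rank_mul_le_right _ _
  have h4 := rank_mul_le_right (fromBlocks (1 : Matrix α α F) 0 (-C) (1 : Matrix β β F))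
    (fromBlocks 1 B C 0)
  rw [e] at h4
  rw [h1, h2] at h
  omega

end

theorem st_LO (F : Type u) [Field F] : ST_LO F := by
  intro V μ _ _ _ S v K b M hM
  refine ⟨fun k => M.submatrix (fun i => ((k, i.1), i.2)) (fun j => (some (k, j.1), j.2)),
    ?_, ?_⟩
  · intro k i j a h x y
    exact hM (k, i) (some (k, j)) a (by simp [tot, h]) x y
  · intro k₀
    have h := lo_many M
      (fun k (i : (Fin 3 ⊕ Option (V × Fin 3)) × Fin b) => ((k, i.1), i.2))
      (fun k (j : (Fin 3 ⊕ ((V × Bool) ⊕ μ)) × Fin b) => (some (k, j.1), j.2))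
      (by
        intro k k' r c hk
        have := hM (k, r.1) (some (k', c.1)) 0 (by simp [tot, hk]) r.2 c.2
        simpa using this)
      (Finset.univ.erase k₀) ((Fin 3 × Fin b) ⊕ Fin b) ((Fin 3 × Fin b) ⊕ Fin b)
      (Sum.elim (fun x => ((k₀, Sum.inl x.1), x.2))
        (fun x => ((k₀, Sum.inr (some (v, 1))), x)))
      (Sum.elim (fun x => (some (k₀, Sum.inl x.1), x.2)) (fun x => (none, x)))
      (by
        intro k hk i c
        have hk' : k₀ ≠ k := (Finset.ne_of_mem_erase hk).symm
        rcases i with i | i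
        · simpa using hM (k₀, Sum.inl i.1) (some (k, c.1)) 0 (by simp [tot, hk']) i.2 c.2
        · simpa using hM (k₀, Sum.inr (some (v, 1))) (some (k, c.1)) 0 (by simp [tot, hk'])
            i c.2)
    obtain ⟨B, hB⟩ : ∃ B : Matrix (Fin 3 × Fin b) (Fin b) F, B = Matrix.of fun x l =>
      if x.2 = l then (if x.1 = 2 then 1 else 0) else 0 := ⟨_, rfl⟩
    obtain ⟨C, hC⟩ : ∃ C : Matrix (Fin b) (Fin 3 × Fin b) F, C = Matrix.of fun k x =>
      M ((k₀, Sum.inr (some (v, 1))), k) (some (k₀, Sum.inl x.1), x.2) := ⟨_, rfl⟩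
    have e : M.submatrix (Sum.elim (fun x => ((k₀, Sum.inl x.1), x.2))
        (fun x => ((k₀, Sum.inr (some (v, 1))), x)))
      (Sum.elim (fun x => (some (k₀, Sum.inl x.1), x.2)) (fun x => (none, x))) =
      fromBlocks (1 : Matrix (Fin 3 × Fin b) (Fin 3 × Fin b) F) B C
        (0 : Matrix (Fin b) (Fin b) F) := by
      ext i j
      rcases i with ⟨a, k⟩ | k <;> rcases j with ⟨a', l⟩ | l
      · have := hM (k₀, Sum.inl a) (some (k₀, Sum.inl a')) (if a = a' then 1 else 0)
          (by simp [tot, pm]) k l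
        simp only [submatrix_apply, Sum.elim_inl, fromBlocks_apply₁₁, one_apply, this,
          Prod.mk.injEq]
        by_cases h1 : a = a' <;> by_cases h2 : k = l <;> simp [h1, h2]
      · have := hM (k₀, Sum.inl a) none (if a = 2 then 1 else 0) rfl k l
        simp only [submatrix_apply, Sum.elim_inl, Sum.elim_inr, fromBlocks_apply₁₂, this, hB,
          of_apply]
      · rw [hC]
        rfl
      · have := hM (k₀, Sum.inr (some (v, 1))) none 0 (by simp [tot]) k l
        simp only [submatrix_apply, Sum.elim_inr, fromBlocks_apply₂₂, this, ite_self,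
          Matrix.zero_apply]
    have hCB : C * B = blk (M.submatrix (fun i => ((k₀, i.1), i.2))
        (fun j => (some (k₀, j.1), j.2))) (Sum.inr (some (v, 1))) (Sum.inl 2) := by
      ext k l
      simp [mul_apply, hB, hC, blk, Fintype.sum_prod_type]
    have hc := lo_core B C
    rw [e] at h
    rw [hCB] at hc
    have hcard : Fintype.card (Fin 3 × Fin b) = 3 * b := by simp
    rw [hcard] at hc
    exact (by rw [add_assoc]; exact (Nat.add_le_add_left hc _).trans h)

end Pool.Agent.Helper62.FR
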